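import Pool.Agent.Work.MP_382727_an.Main

/-!
In every dimension `d ≥ 3` the optimal Neumann monotonicity constants `α_{k,d}` stay below
`47/50` for all `k ≥ 1`, so they do not tend to `1`.
-/

set_option autoImplicit false

namespace Pool.Agent.Results.MP_382727_an.BoundedAway

open Pool.Agent.Work.MP_382727_an

theorem result : ∀ d : ℕ, 3 ≤ d → ∀ k : ℕ, 1 ≤ k → alpha k d ≤ 47 / 50 :=
  fun _ hd _ hk => alpha_le hd hk

end Pool.Agent.Results.MP_382727_an.BoundedAway
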